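import Pool.Agent.D0H4.Gam.Tower

set_option autoImplicit false

/-!
# Towers `a ^ (b ^ c)`: the exceptional exponents are independent, and there are few of them

The number of the problem is `a ^ (b ^ c)` with `a = b = c = √2`.  A positive number is *free* if it is
not of the form `e ^ γ α₁ ^ β₁ ⋯ αₘ ^ βₘ` with algebraic `γ, αᵢ, βᵢ` (free numbers are transcendental).
We consider the towers `a ^ (b₁ ^ x₁ ⋯ bₖ ^ xₖ)`, `b₁, ..., bₖ` multiplicatively independent algebraic
numbers, whose top entry is a vector `x` of real algebraic numbers; whether the tower is free depends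
only on `x` modulo `ℚ ^ k`.

* Two bases: if `log a / log a'` is transcendental, the classes `x` modulo `ℚ ^ k` for which neither the
  tower with `a` nor the one with `a'` is free are affinely independent over `ℚ`.  So for
  multiplicatively independent algebraic `a, a'` there are, in a number field `K` of degree `d`, at most
  `k (d - 1)` classes `x ≠ 0` in `K ^ k / ℚ ^ k` such that both towers are algebraic.
* One base: the same for the towers `a ^ (b ^ x)`, `a ^ (b ^ (x + δ))`, `δ ∉ ℚ ^ k`.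
* Counting: if `1, ω₁, ..., ω_d` are `ℚ`-independent, the tower with `xᵢ = qᵢ + n_{i1} ω₁ + ⋯ + n_{id} ω_d`
  is free, for all rational `qᵢ`, with at most `1 + √((k d + 1) (2 N) ^ (k d))` exceptions among the
  `N ^ (k d)` integer matrices `0 ≤ n_{ij} < N`.

The proof: by the strong six exponentials theorem (Roy) the numbers `y` with `v y`, `v' y` linear forms
in `1` and logarithms span a space of dimension at most two over the algebraic numbers if `v / v'` is
transcendental.  If `s₀, s₁, ...` are such numbers, the `sⱼ / s₀` are linear forms `αⱼ + βⱼ X` in the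
transcendental number `X = s₁ / s₀`, and by unique factorisation in `Q̄[X]` pairwise non-proportional
linear forms are multiplicatively independent modulo algebraic numbers.
-/

namespace Pool.Agent.Results.MP_93d8d2_nt.ExceptionalExponents

open Finset Pool.Agent.H301R2.SSE
open scoped Pointwise

/-- The linear combinations, with algebraic coefficients, of `1` and of logarithms of algebraic
numbers. -/
noncomputable def LogForms : Submodule (algebraicClosure ℚ ℂ) ℂ :=
  Submodule.span (algebraicClosure ℚ ℂ) ({1} ∪ {z : ℂ | IsAlgebraic ℚ (Complex.exp z)})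

/-- The real number `t` is free: its logarithm is not in `LogForms`. -/
def Free (t : ℝ) : Prop := ((Real.log t : ℝ) : ℂ) ∉ LogForms

/-- The tower `a ^ (b₁ ^ x₁ ⋯ bₖ ^ xₖ)`. -/
noncomputable def tower {k : ℕ} (a : ℝ) (b x : Fin k → ℝ) : ℝ := a ^ (∏ i, b i ^ x i)

/-- `b₁, ..., bₖ` are positive real algebraic numbers without a nontrivial multiplicative relation. -/
def Base {k : ℕ} (b : Fin k → ℝ) : Prop :=
  (∀ i, 0 < b i) ∧ (∀ i, IsAlgebraic ℚ (b i)) ∧ ∀ n : Fin k → ℤ, ∏ i, b i ^ n i = 1 → n = 0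

/-- `x` is a vector of rational numbers. -/
def Rational {k : ℕ} (x : Fin k → ℝ) : Prop := ∀ i, ∃ q : ℚ, x i = q

/-- `x₁, ..., xₘ` are vectors of real algebraic numbers, pairwise incongruent modulo the rational
vectors. -/
def Distinct {m k : ℕ} (x : Fin m → Fin k → ℝ) : Prop :=
  (∀ j i, IsAlgebraic ℚ (x j i)) ∧ ∀ j j', j ≠ j' → ¬ Rational (x j - x j')

/-- `x₁, ..., xₘ` are affinely independent over `ℚ` modulo the rational vectors: a combination with
integer coefficients of sum zero is rational only if all coefficients are zero. -/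
def AffineIndependentMod {m k : ℕ} (x : Fin m → Fin k → ℝ) : Prop :=
  ∀ n : Fin m → ℤ, ∑ j, n j = 0 → Rational (∑ j, (n j : ℝ) • x j) → n = 0

/-- `x₁, ..., xₘ` are linearly independent over `ℚ` modulo the rational vectors. -/
def IndependentMod {m k : ℕ} (x : Fin m → Fin k → ℝ) : Prop :=
  ∀ n : Fin m → ℤ, Rational (∑ j, (n j : ℝ) • x j) → n = 0

theorem log_ne {a : ℝ} (ha : 0 < a) (ha1 : a ≠ 1) : ((Real.log a : ℝ) : ℂ) ≠ 0 := by
  rw [Complex.ofReal_ne_zero]
  exact Real.log_ne_zero_of_pos_of_ne_one ha ha1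

open Pool.Agent.D0H4.Gam in
theorem not_free {k : ℕ} {a : ℝ} (ha : 0 < a) {b : Fin k → ℝ} (hb : ∀ i, 0 < b i)
    (x : Fin k → ℝ) (h : ¬ Free (tower a b x)) :
    ((Real.log a : ℝ) : ℂ) * Complex.exp (lf b x) ∈ Lt := by
  unfold Free tower at h
  rw [not_not, log_tower ha hb] at h
  exact h

open Pool.Agent.D0H4.Gam in
theorem two {k : ℕ} {b : Fin k → ℝ} (hb : Base b) {a a' : ℝ} (ha : 0 < a) (ha' : 0 < a')
    (ha1 : a' ≠ 1) (htr : Transcendental ℚ (Real.log a / Real.log a')) {m : ℕ}
    (x : Fin m → Fin k → ℝ) (hx : Distinct x)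
    (h : ∀ j, ¬ Free (tower a b (x j)) ∧ ¬ Free (tower a' b (x j))) : AffineIndependentMod x := by
  intro n hn hq
  refine two_bases hb.1 hb.2.1 hb.2.2 (log_ne ha' ha1) ?_ x hx.1 ?_
    (fun j => not_free ha hb.1 _ (h j).1) (fun j => not_free ha' hb.1 _ (h j).2) n hn ?_
  · rw [← Complex.ofReal_div]
    exact trC.mpr htr
  · exact fun i j hij => hx.2 i j hij
  · intro i
    obtain ⟨q, hq'⟩ := hq i
    exact ⟨q, by rw [← hq', Finset.sum_apply]; rfl⟩

open Pool.Agent.D0H4.Gam in
theorem prod_tr {k : ℕ} {b : Fin k → ℝ} (hb : Base b) {δ : Fin k → ℝ}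
    (hδ : ∀ i, IsAlgebraic ℚ (δ i)) (hδq : ¬ Rational δ) : Transcendental ℚ (∏ i, b i ^ δ i) := by
  rw [← trC, prod_rpow hb.1]
  exact tr_of hb.1 hb.2.1 hb.2.2 hδ hδq

/-- Gelfond–Schneider: `log a / log a'` is transcendental -/
theorem gs_tr {a a' : ℝ} (ha : 0 < a) (ha' : 0 < a') (haa : IsAlgebraic ℚ a)
    (haa' : IsAlgebraic ℚ a') (hind : ∀ m n : ℤ, a ^ m = a' ^ n → m = 0 ∧ n = 0) :
    Transcendental ℚ (Real.log a / Real.log a') := by
  have hbase : Base ![a, a'] := by
    refine ⟨?_, ?_, ?_⟩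
    · intro i
      fin_cases i
      · exact ha
      · exact ha'
    · intro i
      fin_cases i
      · exact haa
      · exact haa'
    · intro n hn
      rw [Fin.prod_univ_two] at hn
      simp only [Matrix.cons_val_zero, Matrix.cons_val_one] at hn
      have h0 : a' ^ n 1 ≠ 0 := zpow_ne_zero _ ha'.ne'
      have h1 : a ^ n 0 = a' ^ (-(n 1)) := by
        rw [zpow_neg]
        exact eq_inv_of_mul_eq_one_left hn
      have h2 := hind _ _ h1
      funext i
      fin_cases i
      · exact h2.1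
      · simpa using h2.2
  intro halg
  have hl' : Real.log a' ≠ 0 := by
    intro h0
    have h1 : a' = 1 := by
      rcases Real.log_eq_zero.mp h0 with h | h | h
      · exact absurd h ha'.ne'
      · exact h
      · linarith
    have := (hind 0 1 (by rw [h1]; simp)).2
    exact one_ne_zero this
  set β := Real.log a / Real.log a' with hβ
  -- `β log a' - log a = 0`
  have hB := Pool.Agent.H297R2.baker_inhom (Pool.Agent.D0H4.Gam.lg ![a, a'])
    (Pool.Agent.D0H4.Gam.lg_alg hbase.1 hbase.2.1)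
    (Pool.Agent.D0H4.Gam.lg_indep hbase.1 hbase.2.2) 0 isAlgebraic_zero ![1, -(β : ℂ)] (by
      intro i
      fin_cases i
      · exact isAlgebraic_one
      · exact (Pool.Agent.D0H4.Gam.algC.mpr halg).neg) (by
      rw [Fin.sum_univ_two]
      simp only [Matrix.cons_val_zero, Matrix.cons_val_one, Pool.Agent.D0H4.Gam.lg]
      have : Real.log a = β * Real.log a' := by
        rw [hβ]
        field_simp
      rw [this]
      push_cast
      ring)
  have := hB.2 0
  simp at this

theorem rational_zero {k : ℕ} : Rational (0 : Fin k → ℝ) := fun _ => ⟨0, by simp⟩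

theorem rational_neg {k : ℕ} {x : Fin k → ℝ} (h : Rational x) : Rational (-x) := by
  intro i
  obtain ⟨q, hq⟩ := h i
  exact ⟨-q, by rw [Pi.neg_apply, hq]; push_cast; rfl⟩

open Pool.Agent.D0H4.Gam in
theorem not_free_zero {k : ℕ} {a : ℝ} (ha : 0 < a) (haa : IsAlgebraic ℚ a) (b : Fin k → ℝ) :
    ¬ Free (tower a b 0) := by
  unfold Free tower
  rw [not_not]
  simp only [Pi.zero_apply, Real.rpow_zero, prod_const_one, Real.rpow_one]
  refine Submodule.subset_span (Or.inr ?_)
  change IsAlgebraic ℚ (Complex.exp _)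
  rw [← Complex.ofReal_exp, Real.exp_log ha]
  exact algC.mpr haa

theorem cons_distinct {k m : ℕ} {x : Fin m → Fin k → ℝ} (hx : Distinct x)
    (h0 : ∀ j, ¬ Rational (x j)) : Distinct (Fin.cons 0 x : Fin (m + 1) → Fin k → ℝ) := by
  constructor
  · intro j
    refine Fin.cases ?_ (fun j => ?_) j
    · intro i
      simp only [Fin.cons_zero, Pi.zero_apply]
      exact isAlgebraic_zero
    · exact hx.1 j
  · intro j j'
    refine Fin.cases ?_ (fun j => ?_) j <;> refine Fin.cases ?_ (fun j' => ?_) j'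
    · exact fun h => absurd rfl h
    · intro _ h
      simp only [Fin.cons_zero, Fin.cons_succ, zero_sub] at h
      have := rational_neg h
      rw [neg_neg] at this
      exact h0 j' this
    · intro _ h
      simp only [Fin.cons_zero, Fin.cons_succ, sub_zero] at h
      exact h0 j h
    · intro hne h
      simp only [Fin.cons_succ] at h
      exact hx.2 j j' (fun e => hne (by rw [e])) h

theorem indep_of_cons {k m : ℕ} {x : Fin m → Fin k → ℝ}
    (h : AffineIndependentMod (Fin.cons 0 x : Fin (m + 1) → Fin k → ℝ)) : IndependentMod x := by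
  intro n hn
  have h1 := h (Fin.cons (-∑ j, n j) n) (by
    rw [Fin.sum_univ_succ]
    simp only [Fin.cons_zero, Fin.cons_succ]
    ring) (by
    rw [Fin.sum_univ_succ]
    simp only [Fin.cons_zero, Fin.cons_succ, smul_zero, zero_add]
    exact hn)
  funext j
  have := congrFun h1 j.succ
  simpa using this

theorem card_of_affine {k d m : ℕ} (K : IntermediateField ℚ ℝ) (hK : FiniteDimensional ℚ K)
    (hd : Module.finrank ℚ K = d) (x : Fin m → Fin k → ℝ) (hx : ∀ j i, x j i ∈ K)
    (h : AffineIndependentMod x) : m ≤ k * (d - 1) + 1 := by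
  have := Pool.Agent.D0H4.Gam.card_field K hd x hx (fun n hn hq => h n hn (by
    intro i
    obtain ⟨q, hq'⟩ := hq i
    exact ⟨q, by rw [← hq', Finset.sum_apply]; rfl⟩))
  rwa [Fintype.card_fin] at this

open Classical in
/-- **Main result.**

(A) Let `v, v' ≠ 0` be complex numbers with transcendental quotient, and `l₁, ..., lₘ` complex numbers
with `v e ^ {l_j}, v' e ^ {l_j} ∈ LogForms` and `e ^ {l_i - l_j}` transcendental for `i ≠ j`.  Then
`e ^ {n₁ l₁ + ... + nₘ lₘ}` is transcendental for all integers `n_j` of sum zero, not all zero.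

(B) Let `r = #ι`, and let `l_i`, `i ∈ ι`, be complex numbers such that `e ^ {∑ nᵢ lᵢ}` is
transcendental for all integer vectors `n ≠ 0`.  Then for `v ≠ 0` and every finite set `A` of integer
vectors the number `e` of the `n ∈ A` with `v e ^ {∑ nᵢ lᵢ} ∈ LogForms` satisfies
`e ^ 2 ≤ e + (r + 1) (#(A - A) - 1)`.

(C) Let `b` be a base, and `a, a'` positive, `a' ≠ 1`, with transcendental `log a / log a'`. Pairwise
incongruent vectors `x₁, ..., xₘ` such that no `tower a b xⱼ` and no `tower a' b xⱼ` is free are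
affinely independent modulo the rational vectors.

(D) Let `b` be a base and `a, a'` positive algebraic numbers without multiplicative relation.
Non-rational, pairwise incongruent vectors `x₁, ..., xₘ` such that no `tower a b xⱼ` and no
`tower a' b xⱼ` is free are linearly independent modulo the rational vectors, and `m ≤ k (d - 1)` if they
have coordinates in a real number field of degree `d`.

(E) Let `b` be a base, `a ≠ 1` positive and `δ` a non-rational vector of real algebraic numbers.
Pairwise incongruent vectors `x₁, ..., xₘ` such that no `tower a b xⱼ` and no `tower a b (xⱼ + δ)` is free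
are affinely independent modulo the rational vectors, and `m ≤ k (d - 1) + 1` if they have coordinates
in a real number field of degree `d`.

(F) Let `b` be a base, `a ≠ 1` positive and `ω₁, ..., ω_d` real algebraic numbers, linearly independent
together with `1` over `ℚ`.  For at most `1 + √((k d + 1) (2 N) ^ {k d})` of the `N ^ {k d}` matrices
`0 ≤ n_{ij} < N` there are rational numbers `q₁, ..., qₖ` such that the tower with
`xᵢ = qᵢ + ∑ⱼ n_{ij} ωⱼ` is not free.

(G) If the positive number `t` is free, then `e ^ (γ + δ log t)` is transcendental for all algebraic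
`γ` and all algebraic `δ ≠ 0`; in particular `t` is transcendental. -/
theorem result :
    -- (A)
    (∀ v v' : ℂ, v' ≠ 0 → Transcendental ℚ (v / v') → ∀ (m : ℕ) (l : Fin m → ℂ),
      (∀ i j, i ≠ j → Transcendental ℚ (Complex.exp (l i - l j))) →
      (∀ j, v * Complex.exp (l j) ∈ LogForms ∧ v' * Complex.exp (l j) ∈ LogForms) →
      ∀ n : Fin m → ℤ, ∑ j, n j = 0 → n ≠ 0 →
        Transcendental ℚ (Complex.exp (∑ j, (n j : ℂ) * l j))) ∧
    -- (B)
    (∀ (ι : Type) [Fintype ι] (l : ι → ℂ),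
      (∀ n : ι → ℤ, n ≠ 0 → Transcendental ℚ (Complex.exp (∑ i, (n i : ℂ) * l i))) →
      ∀ v : ℂ, v ≠ 0 → ∀ A : Finset (ι → ℤ),
        (#{n ∈ A | v * Complex.exp (∑ i, (n i : ℂ) * l i) ∈ LogForms}) ^ 2 ≤
          #{n ∈ A | v * Complex.exp (∑ i, (n i : ℂ) * l i) ∈ LogForms} +
            (Fintype.card ι + 1) * (#(A - A) - 1)) ∧
    -- (C)
    (∀ (k : ℕ) (b : Fin k → ℝ), Base b → ∀ a a' : ℝ, 0 < a → 0 < a' → a' ≠ 1 →
      Transcendental ℚ (Real.log a / Real.log a') → ∀ (m : ℕ) (x : Fin m → Fin k → ℝ), Distinct x →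
      (∀ j, ¬ Free (tower a b (x j)) ∧ ¬ Free (tower a' b (x j))) → AffineIndependentMod x) ∧
    -- (D)
    (∀ (k : ℕ) (b : Fin k → ℝ), Base b → ∀ a a' : ℝ, 0 < a → 0 < a' → IsAlgebraic ℚ a →
      IsAlgebraic ℚ a' → (∀ m n : ℤ, a ^ m = a' ^ n → m = 0 ∧ n = 0) →
      ∀ (m : ℕ) (x : Fin m → Fin k → ℝ), Distinct x → (∀ j, ¬ Rational (x j)) →
      (∀ j, ¬ Free (tower a b (x j)) ∧ ¬ Free (tower a' b (x j))) →
        IndependentMod x ∧ ∀ K : IntermediateField ℚ ℝ, FiniteDimensional ℚ K →
          (∀ j i, x j i ∈ K) → m ≤ k * (Module.finrank ℚ K - 1)) ∧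
    -- (E)
    (∀ (k : ℕ) (b : Fin k → ℝ), Base b → ∀ a : ℝ, 0 < a → a ≠ 1 → ∀ δ : Fin k → ℝ,
      (∀ i, IsAlgebraic ℚ (δ i)) → ¬ Rational δ → ∀ (m : ℕ) (x : Fin m → Fin k → ℝ), Distinct x →
      (∀ j, ¬ Free (tower a b (x j)) ∧ ¬ Free (tower a b (x j + δ))) →
        AffineIndependentMod x ∧ ∀ K : IntermediateField ℚ ℝ, FiniteDimensional ℚ K →
          (∀ j i, x j i ∈ K) → m ≤ k * (Module.finrank ℚ K - 1) + 1) ∧
    -- (F)
    (∀ (k d : ℕ) (b : Fin k → ℝ), Base b → ∀ a : ℝ, 0 < a → a ≠ 1 → ∀ ω : Fin d → ℝ,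
      (∀ j, IsAlgebraic ℚ (ω j)) →
      (∀ (q : ℚ) (n : Fin d → ℤ), ∑ j, (n j : ℝ) * ω j = q → n = 0) → ∀ N : ℕ,
      (#{n : Fin k → Fin d → Fin N | ∃ q : Fin k → ℚ,
        ¬ Free (tower a b (fun i => (q i : ℝ) + ∑ j, ((n i j : ℕ) : ℝ) * ω j))} : ℝ) ≤
        1 + Real.sqrt ((k * d + 1) * (2 * N) ^ (k * d))) ∧
    -- (G)
    (∀ t : ℝ, 0 < t → Free t → Transcendental ℚ t ∧ ∀ γ δ : ℂ, IsAlgebraic ℚ γ →
      IsAlgebraic ℚ δ → δ ≠ 0 →
        Transcendental ℚ (Complex.exp (γ + δ * ((Real.log t : ℝ) : ℂ)))) := by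
  have hE : ∀ (k : ℕ) (b : Fin k → ℝ), Base b → ∀ a : ℝ, 0 < a → a ≠ 1 → ∀ δ : Fin k → ℝ,
      (∀ i, IsAlgebraic ℚ (δ i)) → ¬ Rational δ → ∀ (m : ℕ) (x : Fin m → Fin k → ℝ), Distinct x →
      (∀ j, ¬ Free (tower a b (x j)) ∧ ¬ Free (tower a b (x j + δ))) →
        AffineIndependentMod x := by
    intro k b hb a ha ha1 δ hδ hδq m x hx h
    have hP : (0 : ℝ) < ∏ i, b i ^ δ i :=
      Finset.prod_pos (fun i _ => Real.rpow_pos_of_pos (hb.1 i) _)
    have hlog : Real.log a ≠ 0 := Real.log_ne_zero_of_pos_of_ne_one ha ha1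
    refine two hb (a := tower a b δ) (a' := a) (Real.rpow_pos_of_pos ha _) ha ha1 ?_ x hx ?_
    · unfold tower
      rw [Real.log_rpow ha, mul_div_assoc, div_self hlog, mul_one]
      exact prod_tr hb hδ hδq
    · intro j
      refine ⟨?_, (h j).1⟩
      have e : tower (tower a b δ) b (x j) = tower a b (x j + δ) := by
        unfold tower
        rw [← Real.rpow_mul ha.le]
        congr 1
        rw [← Finset.prod_mul_distrib]
        refine Finset.prod_congr rfl (fun i _ => ?_)
        rw [Pi.add_apply, ← Real.rpow_add (hb.1 i), add_comm]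
      rw [e]
      exact (h j).2
  refine ⟨?_, ?_, ?_, ?_, ?_, ?_, ?_⟩
  · intro v v' hv' htr m l hl h n hn hn0 halg
    exact hn0 (Pool.Agent.D0H4.Gam.structureT hv' htr l hl (fun j => (h j).1) (fun j => (h j).2) n
      hn halg)
  · intro ι _ l hl v hv A
    exact Pool.Agent.D0H4.Gam.count l hl hv A
  · intro k b hb a a' ha ha' ha1 htr m x hx h
    exact two hb ha ha' ha1 htr x hx h
  · intro k b hb a a' ha ha' haa haa' hind m x hx hx0 h
    have htr := gs_tr ha ha' haa haa' hind
    have ha1 : a' ≠ 1 := by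
      intro h1
      have := (hind 0 1 (by rw [h1]; simp)).2
      exact one_ne_zero this
    have haff : AffineIndependentMod (Fin.cons 0 x : Fin (m + 1) → Fin k → ℝ) := by
      refine two hb ha ha' ha1 htr _ (cons_distinct hx hx0) ?_
      intro j
      refine Fin.cases ?_ (fun j => ?_) j
      · simp only [Fin.cons_zero]
        exact ⟨not_free_zero ha haa b, not_free_zero ha' haa' b⟩
      · exact h j
    refine ⟨indep_of_cons haff, fun K hK hxK => ?_⟩
    have := card_of_affine K hK rfl (Fin.cons 0 x : Fin (m + 1) → Fin k → ℝ) (by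
      intro j
      refine Fin.cases ?_ (fun j => ?_) j
      · intro i
        simp only [Fin.cons_zero, Pi.zero_apply]
        exact K.zero_mem
      · exact hxK j) haff
    omega
  · intro k b hb a ha ha1 δ hδ hδq m x hx h
    have haff := hE k b hb a ha ha1 δ hδ hδq m x hx h
    exact ⟨haff, fun K hK hxK => card_of_affine K hK rfl x hxK haff⟩
  · intro k d b hb a ha ha1 ω hω hωi N
    refine le_trans ?_ (Pool.Agent.D0H4.Gam.count_tower hb.1 hb.2.1 hb.2.2 ω hω hωi
      (log_ne ha ha1) N)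
    have : #{n : Fin k → Fin d → Fin N | ∃ q : Fin k → ℚ,
        ¬ Free (tower a b (fun i => (q i : ℝ) + ∑ j, ((n i j : ℕ) : ℝ) * ω j))} ≤
        #{n : Fin k → Fin d → Fin N | ∃ q : Fin k → ℚ, ((Real.log a : ℝ) : ℂ) * Complex.exp
          (Pool.Agent.D0H4.Gam.lf b
            (fun i => (q i : ℝ) + ∑ j, ((n i j : ℕ) : ℝ) * ω j)) ∈ Lt} := by
      apply card_le_card
      intro n hn
      rw [mem_filter] at hn ⊢
      refine ⟨hn.1, ?_⟩
      obtain ⟨q, hq⟩ := hn.2
      exact ⟨q, not_free ha hb.1 _ hq⟩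
    exact_mod_cast this
  · intro t ht hf
    have hG : ∀ γ δ : ℂ, IsAlgebraic ℚ γ → IsAlgebraic ℚ δ → δ ≠ 0 →
        Transcendental ℚ (Complex.exp (γ + δ * ((Real.log t : ℝ) : ℂ))) := by
      intro γ δ hγ hδ hδ0 halg
      apply hf
      change ((Real.log t : ℝ) : ℂ) ∈ Lt
      have h1 : γ + δ * ((Real.log t : ℝ) : ℂ) ∈ Lt := Lt_log halg
      have h2 := Lt.sub_mem h1 (Lt_alg hγ)
      rw [add_sub_cancel_left] at h2
      exact (Pool.Agent.D0H4.Gam.Lt_mul_iff hδ hδ0).mp h2
    refine ⟨?_, hG⟩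
    have := hG 0 1 isAlgebraic_zero isAlgebraic_one one_ne_zero
    rw [zero_add, one_mul, ← Complex.ofReal_exp, Real.exp_log ht] at this
    exact Pool.Agent.D0H4.Gam.trC.mp this

end Pool.Agent.Results.MP_93d8d2_nt.ExceptionalExponents
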