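import Pool.Agent.D0H63.TW.Pair

/-!
# Towers `a ^ (b ^ x)` for ALL good approximations `x`, over all real number fields, of almost every real number

The number of the problem is the tower `a ^ (b ^ x)` with `a = b = x = √2`. We consider the towers
`a ^ (b_1 ^ x_1 ⋯ b_k ^ x_k)`, `b_1, …, b_k` positive and multiplicatively independent algebraic numbers, `a ≠ 1` any positive real
number (or `v b_1 ^ x_1 ⋯ b_k ^ x_k`, `v ≠ 0` any complex number, in place of the logarithm). The top entry is a vector of real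
algebraic numbers of the form
`x_i = (p_i + n_i1 ω_1 + ⋯ + n_id ω_d) / q`, `q`, `|p_i|`, `|n_ij| ≤ T`,
where `1, ω_1, …, ω_d` are real algebraic numbers which are linearly independent over `ℚ`, for instance a basis of a real number
field of degree `d + 1`. There are about `T ^ (k (d + 1) + 1)` of them, and `ξ` in `ℝ^k` should have approximations `x` of this kind
with `|ξ_i - x_i| ≤ T ^ (-τ)` for all `τ < d + 1 + 1 / k`.

Theorem. (1) For all `ξ` in `ℝ^k` but a set of Hausdorff dimension at most `(1 + k + k d / 2) / τ`, which is a null set for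
`τ > 1 + 1 / k + d / 2`: for ALL `b`, ALL `ω_1, …, ω_d`, ALL `a` (or `v`), all `C` and all large `T`, for ALL these `x` with
`|ξ_i - x_i| ≤ C T ^ (-τ)` the tower is transcendental, and its logarithm is no linear form in `1` and logarithms of algebraic
numbers, with algebraic coefficients (`LogForms`).
(2) For all `ξ` but a set of dimension at most `(k + 1) / τ`, a null set for `τ > 1 + 1 / k`: for ALL `b`, `d`, `ω` and ALL
`a`, `a'` for which `log a / log a'` is transcendental (for instance multiplicatively independent algebraic numbers), for all these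
`x` at least one of the towers `a ^ (b_1 ^ x_1 ⋯)`, `a' ^ (b_1 ^ x_1 ⋯)` is transcendental and its logarithm is not in `LogForms`.
(3) So for almost all `ξ` both statements are true for all `d`, and all `τ > 1 + 1 / k + d / 2` and `τ > 1 + 1 / k`, respectively.

The condition `τ > 1 + 1 / k` is natural: if `x` is exceptional, all the `x + r`, `r` in `ℚ^k`, are exceptional, and almost every `ξ`
has approximations `x + r` with an error less than `q ^ (-1 - 1 / k)`, `q` the denominator of `r`.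

The proof combines the counting theorem of helper4 (`Pool.Agent.D0H4.Gam`, hand-in `ExceptionalExponents`), which rests on the
strong six exponentials theorem and Baker's theorem, with a covering argument (`Pool.Agent.D0H63.MR.levels`). One exceptional set
for all `a`: if there is any exceptional `x` for `v` then `v` is in the countable set of the quotients of elements of `LogForms` by numbers
`b_1 ^ x_1 ⋯ b_k ^ x_k`.
-/

set_option autoImplicit false

namespace Pool.Agent.Results.MP_93d8d2_nt.GoodApproximations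

open Filter MeasureTheory
open Pool.Agent.D0H63.TW Pool.Agent.D0H4.Gam

/-- The linear combinations, with algebraic coefficients, of `1` and of logarithms of algebraic numbers. -/
noncomputable def LogForms : Submodule (algebraicClosure ℚ ℂ) ℂ :=
  Submodule.span (algebraicClosure ℚ ℂ) ({1} ∪ {z : ℂ | IsAlgebraic ℚ (Complex.exp z)})

/-- `b_1, …, b_k` are positive real algebraic numbers without a nontrivial multiplicative relation. -/
def Base {k : ℕ} (b : Fin k → ℝ) : Prop :=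
  (∀ i, 0 < b i) ∧ (∀ i, IsAlgebraic ℚ (b i)) ∧ ∀ n : Fin k → ℤ, ∏ i, b i ^ n i = 1 → n = 0

/-- `ω_1, …, ω_d` are real algebraic numbers, linearly independent over `ℚ` together with `1`. -/
def Independent {d : ℕ} (ω : Fin d → ℝ) : Prop :=
  (∀ j, IsAlgebraic ℚ (ω j)) ∧ ∀ (q : ℚ) (n : Fin d → ℤ), ∑ j, (n j : ℝ) * ω j = q → n = 0

/-- the vectors `x_i = (p_i + ∑ n_ij ω_j) / q` with integers `1 ≤ q ≤ T`, `|p_i| ≤ T`, `|n_ij| ≤ T` -/
def Points {k d : ℕ} (ω : Fin d → ℝ) (T : ℝ) : Set (Fin k → ℝ) :=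
  {x | ∃ (q : ℕ) (p : Fin k → ℤ) (n : Fin k × Fin d → ℤ), 1 ≤ q ∧ (q : ℝ) ≤ T ∧ (∀ i, |(p i : ℝ)| ≤ T) ∧
    (∀ i, |(n i : ℝ)| ≤ T) ∧ ∀ i, x i = (p i + ∑ j, (n (i, j) : ℝ) * ω j) / q}

/-- for all `C` and all large `T`, `P x` is true for all `x` in `Points ω T` with `|ξ_i - x_i| ≤ C T ^ (-τ)` -/
def Near {k d : ℕ} (ω : Fin d → ℝ) (τ : ℝ) (ξ : Fin k → ℝ) (P : (Fin k → ℝ) → Prop) : Prop :=
  ∀ C : ℝ, ∀ᶠ T : ℝ in atTop, ∀ x ∈ Points ω T, (∀ i, |ξ i - x i| ≤ C * T ^ (-τ)) → P x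

/-- `v b_1 ^ x_1 ⋯ b_k ^ x_k` is not in `LogForms`, and `a ^ (b_1 ^ x_1 ⋯ b_k ^ x_k)` is transcendental, near `ξ`, for all
bases `b`, all independent `ω_1, …, ω_d`, all complex `v ≠ 0` and all positive real `a ≠ 1` -/
def GoodOne {k : ℕ} (d : ℕ) (τ : ℝ) (ξ : Fin k → ℝ) : Prop :=
  ∀ b : Fin k → ℝ, Base b → ∀ ω : Fin d → ℝ, Independent ω →
    (∀ v : ℂ, v ≠ 0 → Near ω τ ξ fun x => v * ((∏ i, b i ^ x i : ℝ) : ℂ) ∉ LogForms) ∧
    ∀ a : ℝ, 0 < a → a ≠ 1 → Near ω τ ξ fun x => Transcendental ℚ (a ^ (∏ i, b i ^ x i))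

/-- one of the numbers `v b_1 ^ x_1 ⋯ b_k ^ x_k`, `v' b_1 ^ x_1 ⋯ b_k ^ x_k` is not in `LogForms`, and one of the towers with
`a`, `a'` is transcendental, near `ξ`, for all bases `b`, all `d`, all independent `ω_1, …, ω_d`, all complex `v`, `v'` with
transcendental quotient and all positive real `a`, `a'` with transcendental `log a / log a'` -/
def GoodTwo {k : ℕ} (τ : ℝ) (ξ : Fin k → ℝ) : Prop :=
  ∀ b : Fin k → ℝ, Base b → ∀ (d : ℕ) (ω : Fin d → ℝ), Independent ω →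
    (∀ v v' : ℂ, v' ≠ 0 → Transcendental ℚ (v / v') → Near ω τ ξ fun x =>
      v * ((∏ i, b i ^ x i : ℝ) : ℂ) ∉ LogForms ∨ v' * ((∏ i, b i ^ x i : ℝ) : ℂ) ∉ LogForms) ∧
    ∀ a a' : ℝ, 0 < a → 0 < a' → a' ≠ 1 → Transcendental ℚ (Real.log a / Real.log a') → Near ω τ ξ fun x =>
      Transcendental ℚ (a ^ (∏ i, b i ^ x i)) ∨ Transcendental ℚ (a' ^ (∏ i, b i ^ x i))

theorem countable_logForms : (LogForms : Set ℂ).Countable := by
  have h0 : {z : ℂ | IsAlgebraic ℚ (Complex.exp z)}.Countable := by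
    have h1 : {z : ℂ | IsAlgebraic ℚ (Complex.exp z)} ⊆
        ⋃ w ∈ {w : ℂ | IsAlgebraic ℚ w}, ⋃ k : ℤ, {Complex.log w + k * (2 * Real.pi * Complex.I)} := by
      intro z hz
      refine Set.mem_iUnion₂.2 ⟨Complex.exp z, hz, ?_⟩
      have h2 : Complex.exp z = Complex.exp (Complex.log (Complex.exp z)) :=
        (Complex.exp_log (Complex.exp_ne_zero z)).symm
      obtain ⟨k, hk⟩ := Complex.exp_eq_exp_iff_exists_int.1 h2
      exact Set.mem_iUnion.2 ⟨k, hk⟩
    exact ((Algebraic.countable ℚ ℂ).biUnion fun w _ =>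
      Set.countable_iUnion fun k => Set.countable_singleton _).mono h1
  have h1 : ({1} ∪ {z : ℂ | IsAlgebraic ℚ (Complex.exp z)} : Set ℂ).Countable := (Set.countable_singleton _).union h0
  have h2 : Countable ↥(algebraicClosure ℚ ℂ) := by
    have h3 : ((algebraicClosure ℚ ℂ : IntermediateField ℚ ℂ) : Set ℂ).Countable := by
      refine (Algebraic.countable ℚ ℂ).mono ?_
      intro x hx
      exact mem_algebraicClosure_iff.1 hx
    exact h3.to_subtype
  have h4 : Countable ↑({1} ∪ {z : ℂ | IsAlgebraic ℚ (Complex.exp z)} : Set ℂ) := h1.to_subtype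
  unfold LogForms
  rw [Finsupp.span_eq_range_linearCombination]
  exact Set.countable_range _

theorem tr_of_log {k : ℕ} {a : ℝ} (ha : 0 < a) {b : Fin k → ℝ} (x : Fin k → ℝ)
    (h : ((Real.log a : ℝ) : ℂ) * ((∏ i, b i ^ x i : ℝ) : ℂ) ∉ LogForms) : Transcendental ℚ (a ^ (∏ i, b i ^ x i)) := by
  intro halg
  apply h
  refine Submodule.subset_span (Or.inr ?_)
  show IsAlgebraic ℚ (Complex.exp (((Real.log a : ℝ) : ℂ) * ((∏ i, b i ^ x i : ℝ) : ℂ)))
  have h1 : Complex.exp (((Real.log a : ℝ) : ℂ) * ((∏ i, b i ^ x i : ℝ) : ℂ)) =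
      algebraMap ℝ ℂ (a ^ (∏ i, b i ^ x i)) := by
    rw [Complex.coe_algebraMap, Real.rpow_def_of_pos ha, ← Complex.ofReal_mul, ← Complex.ofReal_exp]
  rw [h1]
  exact halg.algebraMap

theorem near_mono {k d : ℕ} {ω : Fin d → ℝ} {τ τ' : ℝ} (h : τ' ≤ τ) {ξ : Fin k → ℝ} {P : (Fin k → ℝ) → Prop}
    (hP : Near ω τ' ξ P) : Near ω τ ξ P := by
  intro C
  filter_upwards [hP |C|, eventually_ge_atTop 1] with T hT hT1 x hx hclose
  refine hT x hx fun i => (hclose i).trans ?_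
  calc C * T ^ (-τ) ≤ |C| * T ^ (-τ) := mul_le_mul_of_nonneg_right (le_abs_self C) (by positivity)
    _ ≤ |C| * T ^ (-τ') := mul_le_mul_of_nonneg_left
        (Real.rpow_le_rpow_of_exponent_le hT1 (by linarith)) (abs_nonneg C)

theorem goodOne_mono {k d : ℕ} {τ τ' : ℝ} (h : τ' ≤ τ) {ξ : Fin k → ℝ} (hP : GoodOne d τ' ξ) : GoodOne d τ ξ :=
  fun b hb ω hω => ⟨fun v hv => near_mono h ((hP b hb ω hω).1 v hv), fun a ha ha1 => near_mono h ((hP b hb ω hω).2 a ha ha1)⟩

theorem goodTwo_mono {k : ℕ} {τ τ' : ℝ} (h : τ' ≤ τ) {ξ : Fin k → ℝ} (hP : GoodTwo τ' ξ) : GoodTwo τ ξ :=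
  fun b hb d ω hω => ⟨fun v v' hv htr => near_mono h ((hP b hb d ω hω).1 v v' hv htr),
    fun a a' ha ha' ha1 htr => near_mono h ((hP b hb d ω hω).2 a a' ha ha' ha1 htr)⟩

/-- **Theorem.** Let `k ≥ 1`. (1) For all `d` and `τ > 0` the set of the vectors `ξ` in `ℝ^k` which are not `GoodOne` has Hausdorff
dimension at most `(1 + k + k d / 2) / τ`. (2) For all `τ > 0` the set of the vectors which are not `GoodTwo` has dimension at
most `(k + 1) / τ`. (3) Almost all `ξ` are `GoodOne` for all `d` and all `τ > 1 + 1 / k + d / 2` and `GoodTwo` for all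
`τ > 1 + 1 / k`. -/
theorem result (k : ℕ) (hk : 1 ≤ k) :
    (∀ (d : ℕ) (τ : ℝ), 0 < τ → dimH {ξ : Fin k → ℝ | ¬ GoodOne d τ ξ} ≤ ENNReal.ofReal ((1 + (k : ℝ) + k * d / 2) / τ)) ∧
    (∀ τ : ℝ, 0 < τ → dimH {ξ : Fin k → ℝ | ¬ GoodTwo τ ξ} ≤ ENNReal.ofReal (((k : ℝ) + 1) / τ)) ∧
    ∀ᵐ ξ : Fin k → ℝ, (∀ (d : ℕ) (τ : ℝ), 1 + 1 / (k : ℝ) + d / 2 < τ → GoodOne d τ ξ) ∧
      ∀ τ : ℝ, 1 + 1 / (k : ℝ) < τ → GoodTwo τ ξ := by
  have hk0 : (0 : ℝ) < k := by
    have : 0 < k := hk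
    exact_mod_cast this
  have hone : ∀ (d : ℕ) (τ : ℝ), 0 < τ →
      dimH {ξ : Fin k → ℝ | ¬ GoodOne d τ ξ} ≤ ENNReal.ofReal ((1 + (k : ℝ) + k * d / 2) / τ) := by
    intro d τ hτ
    obtain ⟨E, hE, h⟩ := top (k := k) (d := d) countable_logForms hτ
    refine le_trans (dimH_mono ?_) hE
    intro ξ hξ
    by_contra hξE
    apply hξ
    intro b hb ω hω
    have h1 : ∀ v : ℂ, v ≠ 0 → Near ω τ ξ fun x => v * ((∏ i, b i ^ x i : ℝ) : ℂ) ∉ LogForms := by
      intro v hv C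
      refine (h ξ hξE b hb ω hω v hv C).mono fun T hT x hx hclose hbad => hT x hx hclose ?_
      rw [← prod_rpow hb.1]
      exact hbad
    refine ⟨h1, fun a ha ha1 C => ?_⟩
    have hv : ((Real.log a : ℝ) : ℂ) ≠ 0 := Complex.ofReal_ne_zero.2 (Real.log_ne_zero_of_pos_of_ne_one ha ha1)
    exact (h1 _ hv C).mono fun T hT x hx hclose => tr_of_log ha x (hT x hx hclose)
  have htwo : ∀ τ : ℝ, 0 < τ → dimH {ξ : Fin k → ℝ | ¬ GoodTwo τ ξ} ≤ ENNReal.ofReal (((k : ℝ) + 1) / τ) := by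
    intro τ hτ
    obtain ⟨E, hE, h⟩ := top2 (k := k) countable_logForms hτ
    refine le_trans (dimH_mono ?_) hE
    intro ξ hξ
    by_contra hξE
    apply hξ
    intro b hb d ω hω
    have h1 : ∀ v v' : ℂ, v' ≠ 0 → Transcendental ℚ (v / v') → Near ω τ ξ fun x =>
        v * ((∏ i, b i ^ x i : ℝ) : ℂ) ∉ LogForms ∨ v' * ((∏ i, b i ^ x i : ℝ) : ℂ) ∉ LogForms := by
      intro v v' hv htr C
      refine (h ξ hξE b hb d ω hω v v' hv htr C).mono fun T hT x hx hclose => ?_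
      have h2 := hT x hx hclose
      rw [← prod_rpow hb.1] at h2
      exact h2
    refine ⟨h1, fun a a' ha ha' ha1 htr C => ?_⟩
    have hv : ((Real.log a' : ℝ) : ℂ) ≠ 0 := Complex.ofReal_ne_zero.2 (Real.log_ne_zero_of_pos_of_ne_one ha' ha1)
    have htr' : Transcendental ℚ (((Real.log a : ℝ) : ℂ) / ((Real.log a' : ℝ) : ℂ)) := by
      rw [← Complex.ofReal_div]
      exact trC.mpr htr
    refine (h1 _ _ hv htr' C).mono fun T hT x hx hclose => ?_
    rcases hT x hx hclose with h2 | h2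
    · exact Or.inl (tr_of_log ha x h2)
    · exact Or.inr (tr_of_log ha' x h2)
  refine ⟨hone, htwo, ?_⟩
  have hnull1 : ∀ (d : ℕ) (τ : ℚ), 1 + 1 / (k : ℝ) + d / 2 < τ → ∀ᵐ ξ : Fin k → ℝ, GoodOne d (τ : ℝ) ξ := by
    intro d τ hτ
    have hτ0 : (0 : ℝ) < τ := lt_of_le_of_lt (by positivity) hτ
    have h1 := Pool.Agent.N251.LF.null_of_dim (hone d τ hτ0) (by
      rw [Fintype.card_fin, div_lt_iff₀ hτ0]
      have h2 : (k : ℝ) * (1 + 1 / (k : ℝ) + d / 2) < k * τ := mul_lt_mul_of_pos_left hτ hk0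
      have h3 : (k : ℝ) * (1 + 1 / (k : ℝ) + d / 2) = 1 + (k : ℝ) + k * d / 2 := by
        field_simp
        ring
      linarith) (by rw [Fintype.card_fin]; omega)
    filter_upwards [compl_mem_ae_iff.2 h1] with ξ hξ
    by_contra h2
    exact hξ h2
  have hnull2 : ∀ τ : ℚ, 1 + 1 / (k : ℝ) < τ → ∀ᵐ ξ : Fin k → ℝ, GoodTwo (τ : ℝ) ξ := by
    intro τ hτ
    have hτ0 : (0 : ℝ) < τ := lt_of_le_of_lt (by positivity) hτ
    have h1 := Pool.Agent.N251.LF.null_of_dim (htwo τ hτ0) (by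
      rw [Fintype.card_fin, div_lt_iff₀ hτ0]
      have h2 : (k : ℝ) * (1 + 1 / (k : ℝ)) < k * τ := mul_lt_mul_of_pos_left hτ hk0
      have h3 : (k : ℝ) * (1 + 1 / (k : ℝ)) = (k : ℝ) + 1 := by
        field_simp
      linarith) (by rw [Fintype.card_fin]; omega)
    filter_upwards [compl_mem_ae_iff.2 h1] with ξ hξ
    by_contra h2
    exact hξ h2
  have h1 : ∀ᵐ ξ : Fin k → ℝ, ∀ (d : ℕ) (τ : ℚ), 1 + 1 / (k : ℝ) + d / 2 < τ → GoodOne d (τ : ℝ) ξ := by
    rw [ae_all_iff]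
    intro d
    rw [ae_all_iff]
    intro τ
    by_cases h : 1 + 1 / (k : ℝ) + d / 2 < τ
    · filter_upwards [hnull1 d τ h] with ξ hξ _
      exact hξ
    · exact Eventually.of_forall fun ξ h' => absurd h' h
  have h2 : ∀ᵐ ξ : Fin k → ℝ, ∀ τ : ℚ, 1 + 1 / (k : ℝ) < τ → GoodTwo (τ : ℝ) ξ := by
    rw [ae_all_iff]
    intro τ
    by_cases h : 1 + 1 / (k : ℝ) < τ
    · filter_upwards [hnull2 τ h] with ξ hξ _
      exact hξ
    · exact Eventually.of_forall fun ξ h' => absurd h' h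
  filter_upwards [h1, h2] with ξ hξ1 hξ2
  refine ⟨fun d τ hτ => ?_, fun τ hτ => ?_⟩
  · obtain ⟨τ', h3, h4⟩ := exists_rat_btwn hτ
    exact goodOne_mono h4.le (hξ1 d τ' h3)
  · obtain ⟨τ', h3, h4⟩ := exists_rat_btwn hτ
    exact goodTwo_mono h4.le (hξ2 τ' h3)

end Pool.Agent.Results.MP_93d8d2_nt.GoodApproximations
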