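import Pool.Agent.D0H63.TW.Red

/-!
# One sequence of integers for all towers `a ^ (n ^ c)`

The number of the problem is `a ^ (n ^ c)` for `a = √2`, `n = 2`, `c = √2 / 2`. A number is *free* if its logarithm is not a linear
form in `1` and logarithms of algebraic numbers, with algebraic coefficients (`LogForms`); free numbers are transcendental, and
so are the `e ^ γ t ^ δ`, `t` free, `γ`, `δ ≠ 0` algebraic. By the starting files (`MiddleEntriesRate`, `GeneralizedTowers`) the
towers `a ^ (n ^ c)`, `a ≠ 1`, `c` irrational, and more generally the values at `n` of the functions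
`F(n) = ∑ n ^ {c_i} B_i(log n)`, are free for all but `C N (log log N) ^ C / log N` of the `n ≤ N`. The exceptional `n` can depend on
`a`, `c` and on the `c_i` and `B_i`, so this does not give a single number `n`, or a single sequence, for all `a`, `c`.

Theorem. Let `f_1, f_2, …` be starshaped functions (`f_k(x) / x` nondecreasing), for instance `f_k(x) = x ^ (v_k)` with
`∑ L_k v_k ^ (-δ) < ∞` for a `δ < 1` (such as `v_k = k ^ (1 + η)` and `L_k` constant, `v_k = k ^ 2` and `L_k = k ^ (1 - η)`, or
`v_k = 3 ^ k` as in Mills's theorem and `L_k = 2 ^ k`), or `f_k(x) = v_k x` with `∑ L_k (log v_k) ^ (-δ) < ∞` (such as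
`v_k = 10 ^ (k ^ 2)`: the integers near `v_k x` are the truncated decimal expansions of `x`). For almost all `x` the following is true
with one exceptional null set:

* for ALL complex `v ≠ 0` and ALL complex `c ∉ ℚ`, for all large `k`, for ALL integers `n` with `|n - f_k(x)| ≤ L_k`, the number
  `v n ^ c` is not in `LogForms`. In particular `a ^ (n ^ c)` is free and transcendental for ALL positive real numbers `a ≠ 1` and ALL
  real irrational numbers `c` (algebraic or not);
* the same is true of ALL the functions `F`, except for the trivial cases of the starting file, with exponents `c_i` in a given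
  countable set (for instance the set of all the algebraic numbers) and with arbitrary complex coefficients of the `B_i`.

So there is one sequence of integers (for instance `n_k = ⌊x ^ (k ^ 2)⌋`) such that, whatever `a` and `c` are, all but finitely many of
the towers `a ^ (n_k ^ c)` are transcendental.

Proof. The lemma of Borel and Cantelli for starshaped functions (`Pool.Agent.R482.ST`) gives a null set for each `F`. To have one null
set for uncountably many `F`: if the exceptional arguments of `F` are the `n` in `S`, the vectors `(n ^ {c_i} (log n) ^ j)_(i, j)`,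
`n` in `S`, span a space of finite dimension, and so there are finitely many `n_l` in `S` such that the values of `F` on `S` are
determined by the values at the `n_l`. These are in the countable set `LogForms`. So `F` agrees on `S` with one of countably many functions, and
`S` is contained in the exceptional set of this function (`Pool.Agent.D0H63.TW.exists_idx`). If `v n ^ c` has two exceptional
arguments `n`, `n'` then `(n / n') ^ c` is the quotient of two numbers in `LogForms`, and `c` is in a countable set.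
-/

set_option autoImplicit false

namespace Pool.Agent.Results.MP_93d8d2_nt.MetricSequences

open Filter MeasureTheory Polynomial
open Pool.Agent.Results.MP_93d8d2_nt.GeneralizedTowers (LogForms F Trivial)
open Pool.Agent.D0H63.TW

/-- the functions `f k` are positive on `(a, ∞)`, `a ≥ 0`, and `f k x / x` is nondecreasing there -/
def Starshaped (a : ℝ) (f : ℕ → ℝ → ℝ) : Prop :=
  0 ≤ a ∧ ∀ k : ℕ, ∀ x y : ℝ, a < x → x ≤ y → 0 < f k x ∧ f k x / x ≤ f k y / y

/-- `P n` is true for all the natural numbers `n` within `L k` of `f k x`, for all large `k` -/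
def Near (f : ℕ → ℝ → ℝ) (L : ℕ → ℝ) (x : ℝ) (P : ℕ → Prop) : Prop :=
  ∀ᶠ k in atTop, ∀ n : ℕ, |(n : ℝ) - f k x| ≤ L k → P n

/-- for all the natural numbers `n` within `L k` of `f k x`, for all large `k`: `v n ^ c` is not in `LogForms` (for any `v ≠ 0` and
`c ∉ ℚ`), `a ^ (n ^ c)` is transcendental (for any `a > 0`, `a ≠ 1` and any irrational `c`), and `F c B n = ∑ n ^ {c_i} B_i(log n)`
is not in `LogForms` (for any nontrivial `F` with exponents in `E`) -/
def Works (E : Set ℂ) (f : ℕ → ℝ → ℝ) (L : ℕ → ℝ) (x : ℝ) : Prop :=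
  (∀ v c : ℂ, v ≠ 0 → (∀ r : ℚ, c ≠ r) →
    Near f L x fun n => v * Complex.exp (c * ((Real.log n : ℝ) : ℂ)) ∉ LogForms) ∧
  (∀ a c : ℝ, 0 < a → a ≠ 1 → Irrational c → Near f L x fun n => Transcendental ℚ (a ^ ((n : ℝ) ^ c))) ∧
  ∀ (m : ℕ) (c : Fin m → ℂ) (B : Fin m → ℂ[X]), Function.Injective c → (∀ i, c i ∈ E) → ¬ Trivial c B →
    Near f L x fun n => F c B n ∉ LogForms

theorem works_of (E : Set ℂ) {f : ℕ → ℝ → ℝ} {L : ℕ → ℝ} {x : ℝ} (hinf : Tendsto (fun k => f k x) atTop atTop)
    (hLf : ∀ᶠ k in atTop, 2 * L k ≤ f k x) (h : ∀ j, Avoids f L (Q (E ∪ CSet) j) x) : Works E f L x := by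
  have h3 : ∀ (m : ℕ) (c : Fin m → ℂ) (B : Fin m → ℂ[X]), Function.Injective c → (∀ i, c i ∈ E ∪ CSet) → ¬ Trivial c B →
      Near f L x fun n => F c B n ∉ LogForms := by
    intro m c B hc hE hB
    obtain ⟨j, hj⟩ := exists_idx (E ∪ CSet) c hc hE B hB
    obtain ⟨k₀, hk⟩ := h j
    filter_upwards [hinf.eventually_ge_atTop 2, hLf, eventually_ge_atTop k₀] with k h1 h2 h4 n hn hbad
    have h5 : (1 : ℝ) ≤ n := by
      have := (abs_le.1 hn).1
      linarith
    exact hk k h4 n (by exact_mod_cast h5) hn (hj n hbad)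
  have h1 : ∀ v c : ℂ, v ≠ 0 → (∀ r : ℚ, c ≠ r) →
      Near f L x fun n => v * Complex.exp (c * ((Real.log n : ℝ) : ℂ)) ∉ LogForms := by
    intro v c hv hc
    by_cases hcC : c ∈ CSet
    · have h4 := h3 1 (fun _ => c) (fun _ => Polynomial.C v) (fun i j _ => Subsingleton.elim i j) (fun _ => Or.inr hcC) (by
        intro ht
        have h5 := (ht 0).1 (fun ⟨r, hr⟩ => hc r hr)
        exact hv (Polynomial.C_eq_zero.1 h5))
      refine h4.mono fun k hk n hn hbad => hk n hn ?_
      have h5 : F (fun _ : Fin 1 => c) (fun _ => Polynomial.C v) n = v * Complex.exp (c * ((Real.log n : ℝ) : ℂ)) := by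
        unfold F
        rw [Fin.sum_univ_one, Polynomial.eval_C]
        ring
      rw [h5]
      exact hbad
    · by_cases h4 : ∃ n₁ : ℕ, 1 ≤ n₁ ∧ v * Complex.exp (c * ((Real.log n₁ : ℝ) : ℂ)) ∈ LogForms
      · obtain ⟨n₁, h5, h6⟩ := h4
        filter_upwards [hinf.eventually_ge_atTop (2 * ((n₁ : ℝ) + 1)), hLf] with k h7 h8 n hn hbad
        have h9 : (n₁ : ℝ) + 1 ≤ n := by
          have := (abs_le.1 hn).1
          linarith
        have h10 : n₁ + 1 ≤ n := by exact_mod_cast h9
        exact hcC (mem_CSet hv (by omega) h5 (by omega) hbad h6)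
      · push Not at h4
        filter_upwards [hinf.eventually_ge_atTop 2, hLf] with k h7 h8 n hn
        have h9 : (1 : ℝ) ≤ n := by
          have := (abs_le.1 hn).1
          linarith
        exact h4 n (by exact_mod_cast h9)
  refine ⟨h1, ?_, fun m c B hc hE hB => h3 m c B hc (fun i => Or.inl (hE i)) hB⟩
  intro a c ha ha1 hc
  have hv : ((Real.log a : ℝ) : ℂ) ≠ 0 := by
    rw [Complex.ofReal_ne_zero]
    exact Real.log_ne_zero_of_pos_of_ne_one ha ha1
  have hcr : ∀ r : ℚ, (c : ℂ) ≠ r := by
    intro r hr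
    apply hc
    refine ⟨r, ?_⟩
    have h2 : ((r : ℝ) : ℂ) = (c : ℂ) := by
      rw [hr]
      push_cast
      rfl
    exact_mod_cast h2
  filter_upwards [h1 _ _ hv hcr, hinf.eventually_ge_atTop 2, hLf] with k hk h7 h8 n hn
  have h9 : (1 : ℝ) ≤ n := by
    have := (abs_le.1 hn).1
    linarith
  have hn0 : (0 : ℝ) < n := by linarith
  have h2 := GeneralizedTowers.result.2.2 _ 0 1 (hk n hn) isAlgebraic_zero isAlgebraic_one one_ne_zero
  rw [zero_add, one_mul] at h2
  intro halg
  apply h2
  have h4 : Complex.exp (((Real.log a : ℝ) : ℂ) * Complex.exp ((c : ℂ) * ((Real.log n : ℝ) : ℂ))) =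
      algebraMap ℝ ℂ (a ^ ((n : ℝ) ^ c)) := by
    rw [Complex.coe_algebraMap, Real.rpow_def_of_pos ha, Real.rpow_def_of_pos hn0]
    push_cast
    rw [mul_comm (c : ℂ)]
  rw [h4]
  exact halg.algebraMap

theorem ae_works (E : Set ℂ) (hE : E.Countable) {f : ℕ → ℝ → ℝ} {L : ℕ → ℝ} {a : ℝ}
    (hinf : ∀ x : ℝ, a < x → Tendsto (fun k => f k x) atTop atTop) (hLf : ∀ x : ℝ, a < x → ∀ᶠ k in atTop, 2 * L k ≤ f k x)
    (h : ∀ S : Set ℕ, LogThin S → ∃ N : Set ℝ, volume N = 0 ∧ ∀ x : ℝ, a < x → x ∉ N → Avoids f L S x) :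
    ∀ᵐ x : ℝ, a < x → Works E f L x := by
  have h1 : Countable ↑(E ∪ CSet) := (hE.union countable_CSet).to_subtype
  have h2 : Countable LogForms := countable_logForms.to_subtype
  choose N hN hNx using fun j => h (Q (E ∪ CSet) j) (Q_thin (E ∪ CSet) j)
  have h3 : volume (⋃ j, N j) = 0 := measure_iUnion_null hN
  filter_upwards [compl_mem_ae_iff.2 h3] with x hx hax
  refine works_of E (hinf x hax) (hLf x hax) fun j => hNx j x hax fun h4 => hx (Set.mem_iUnion.2 ⟨j, h4⟩)

/-- **Theorem.** Let `E` be a countable set of complex numbers.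
(1) Let the `f k` be starshaped on `(a, ∞)`, `f k x → ∞` and `2 L k ≤ f k x` for large `k`, and let
`∑ L_k (1 + log (f_k(y) / f_k(x))) (log f_k(x)) ^ (-δ)` converge for all `a < x ≤ y`, for one `δ` with `0 < δ < 1`. Then almost all
`x > a` work for all the towers and functions (`Works`).
(2) If `v k ≥ 1`, `L k ≥ 1` and `∑ L_k v_k ^ (-δ)` converges then almost all `x > 1` work for the functions `x ^ (v k)`.
(3) If `v k ≥ 2`, `L k ≥ 1` and `∑ L_k (log v_k) ^ (-δ)` converges then almost all `x > 0` work for the functions `v k x`. -/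
theorem result (E : Set ℂ) (hE : E.Countable) :
    (∀ (f : ℕ → ℝ → ℝ) (L : ℕ → ℝ) (a δ : ℝ), Starshaped a f → 0 < δ → δ < 1 → (∀ k, 0 ≤ L k) →
      (∀ x : ℝ, a < x → Tendsto (fun k => f k x) atTop atTop) → (∀ x : ℝ, a < x → ∀ᶠ k in atTop, 2 * L k ≤ f k x) →
      (∀ x y : ℝ, a < x → x ≤ y →
        Summable fun k => L k * (1 + Real.log (f k y / f k x)) * (Real.log (f k x)) ^ (-δ)) →
      ∀ᵐ x : ℝ, a < x → Works E f L x) ∧
    (∀ (v L : ℕ → ℝ) (δ : ℝ), 0 < δ → δ < 1 → (∀ k, 1 ≤ v k) → (∀ k, 1 ≤ L k) →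
      Summable (fun k => L k * (v k) ^ (-δ)) → ∀ᵐ x : ℝ, 1 < x → Works E (fun k x => x ^ v k) L x) ∧
    (∀ (v L : ℕ → ℝ) (δ : ℝ), 0 < δ → δ < 1 → (∀ k, 2 ≤ v k) → (∀ k, 1 ≤ L k) →
      Summable (fun k => L k * (Real.log (v k)) ^ (-δ)) → ∀ᵐ x : ℝ, 0 < x → Works E (fun k x => v k * x) L x) := by
  refine ⟨?_, ?_, ?_⟩
  · intro f L a δ hf hδ0 hδ hL hinf hLf hsum
    exact ae_works E hE hinf hLf fun S hS => star_thin hS hf.1 hf.2 hδ0 hδ hL hinf hLf hsum
  · intro v L δ hδ0 hδ hv hL hsum
    obtain ⟨h1, h2⟩ := Pool.Agent.R482.ST.tend_of_sum hv hL hδ0 hsum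
    refine ae_works E hE (fun x hx => ?_) h2 fun S hS => pow_thin hS hδ0 hδ hv hL hsum
    exact (tendsto_rpow_atTop_of_base_gt_one x hx).comp h1
  · intro v L δ hδ0 hδ hv hL hsum
    obtain ⟨u, hu⟩ : ∃ u : ℕ → ℝ, ∀ k, u k = Real.log (v k) := ⟨_, fun _ => rfl⟩
    have hv0 : ∀ k, 0 < v k := fun k => by linarith [hv k]
    have hu0 : ∀ k, 0 < u k := fun k => by rw [hu]; exact Real.log_pos (by linarith [hv k])
    have hsum' : Summable fun k => L k * (u k) ^ (-δ) := by
      refine hsum.congr fun k => ?_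
      rw [hu]
    have hs1 : Summable fun k => (u k) ^ (-δ) := by
      refine Summable.of_nonneg_of_le (fun k => Real.rpow_nonneg (hu0 k).le _) (fun k => ?_) hsum'
      exact le_mul_of_one_le_left (Real.rpow_nonneg (hu0 k).le _) (hL k)
    have huinf : Tendsto u atTop atTop := by
      rw [tendsto_atTop]
      intro M
      exact Pool.Agent.R482.ST.large hu0 hδ0 hs1 M
    have hvu : ∀ k, v k = Real.exp (u k) := fun k => by rw [hu, Real.exp_log (hv0 k)]
    have hvinf : Tendsto v atTop atTop := by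
      have h1 := Real.tendsto_exp_atTop.comp huinf
      exact h1.congr fun k => (hvu k).symm
    have hinf : ∀ x : ℝ, 0 < x → Tendsto (fun k => v k * x) atTop atTop := fun x hx => hvinf.atTop_mul_const hx
    have hLf : ∀ x : ℝ, 0 < x → ∀ᶠ k in atTop, 2 * L k ≤ v k * x := by
      intro x hx
      have h2 := hsum'.tendsto_atTop_zero.eventually (gt_mem_nhds (show (0 : ℝ) < 1 by norm_num))
      have h3 := ((tendsto_exp_mul_div_rpow_atTop δ 1 one_pos).comp huinf).eventually (eventually_ge_atTop (2 / x))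
      filter_upwards [h2, h3] with k hk2 hk3
      have hk3 : 2 / x ≤ Real.exp (1 * u k) / (u k) ^ δ := hk3
      have hp : 0 < (u k) ^ δ := Real.rpow_pos_of_pos (hu0 k) _
      rw [one_mul, div_le_div_iff₀ hx hp, ← hvu] at hk3
      rw [Real.rpow_neg (hu0 k).le, ← div_eq_mul_inv, div_lt_one hp] at hk2
      linarith
    refine ae_works E hE hinf hLf fun S hS => star_thin (f := fun k x => v k * x) hS le_rfl ?_ hδ0 hδ
      (fun k => by linarith [hL k]) hinf hLf ?_
    · intro k x y hx hxy
      have hy : 0 < y := by linarith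
      refine ⟨mul_pos (hv0 k) hx, le_of_eq ?_⟩
      rw [mul_div_cancel_right₀ _ hx.ne', mul_div_cancel_right₀ _ hy.ne']
    · intro x y hx hxy
      have hy : 0 < y := by linarith
      refine Summable.of_norm_bounded_eventually_nat (hsum'.mul_left ((1 + Real.log (y / x)) * 2 ^ δ)) ?_
      filter_upwards [huinf.eventually_ge_atTop (2 * |Real.log x|)] with k hk
      have h1 : v k * y / (v k * x) = y / x := mul_div_mul_left _ _ (hv0 k).ne'
      have h2 : 0 ≤ Real.log (y / x) := Real.log_nonneg (by rwa [one_le_div hx])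
      have h3 : u k / 2 ≤ Real.log (v k * x) := by
        rw [Real.log_mul (hv0 k).ne' hx.ne', ← hu]
        have := neg_abs_le (Real.log x)
        linarith
      have h4 : 0 < u k / 2 := half_pos (hu0 k)
      have h5 : (Real.log (v k * x)) ^ (-δ) ≤ (u k / 2) ^ (-δ) := Real.rpow_le_rpow_of_nonpos h4 h3 (by linarith)
      have h6 : (u k / 2) ^ (-δ) = 2 ^ δ * (u k) ^ (-δ) := by
        rw [Real.div_rpow (hu0 k).le (by norm_num), Real.rpow_neg (by norm_num : (0 : ℝ) ≤ 2), div_inv_eq_mul, mul_comm]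
      have h7 : 0 ≤ (Real.log (v k * x)) ^ (-δ) := Real.rpow_nonneg (by linarith) _
      have h8 := hL k
      simp only [h1]
      rw [Real.norm_of_nonneg (by positivity)]
      calc L k * (1 + Real.log (y / x)) * (Real.log (v k * x)) ^ (-δ) ≤
            L k * (1 + Real.log (y / x)) * (2 ^ δ * (u k) ^ (-δ)) := by
              rw [← h6]
              gcongr
        _ = _ := by ring

end Pool.Agent.Results.MP_93d8d2_nt.MetricSequences
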