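import Pool.Agent.D0H63.TW.RatMet

/-!
# Towers `a ^ (x ^ c)` at the rational numbers `x` close to almost every real number

The number of the problem is `a ^ (x ^ c)` for `a = √2`, `x = 2`, `c = √2 / 2`. This file is about towers with rational middle entries
`x = p / q`. A number is *free* if its logarithm is not a linear form in `1` and logarithms of algebraic numbers, with algebraic
coefficients (`LogForms`); free numbers are transcendental. The starting files treat integers `x`.

Theorem. Let `ψ ≥ 0` be a function with `∑ q ψ(q) (log q) ^ (-θ) < ∞` for a `θ < 1`, for instance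
`ψ(q) = 1 / (q ^ 2 (log q) ^ δ)` with any `δ > 0`. For almost all `ξ > 0` (one null set for everything) the following is true for
all the rational numbers `x = p / q`, not necessarily in lowest terms, with `|ξ - x| ≤ ψ(q)` and `q` sufficiently large:

* for ALL complex `v ≠ 0` and ALL complex `c ∉ ℚ`, the number `v x ^ c` is not in `LogForms`. So `a ^ (x ^ c)` is free and
  transcendental for ALL positive real numbers `a ≠ 1` and ALL irrational real numbers `c`, algebraic or not;
* the same is true of ALL the functions `F(x) = ∑ x ^ {c_i} B_i(log x)`, except for the trivial cases, with exponents `c_i` in a given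
  countable set (for instance the set of all the algebraic numbers) and with arbitrary complex coefficients of the `B_i`.

By the theorem of Khinchin almost all `ξ` have infinitely many such approximations `p / q` if `ψ(q) = 1 / (q ^ 2 (log q) ^ δ)` and
`δ ≤ 1`; this remark is not proved here.

Proof. `F(p / q) = ∑ p ^ {c_i} B_{i,q}(log p)`, with `B_{i,q}(X) = q ^ {-c_i} B_i(X - log q)`. The bound `C N (log log N) ^ C / log N`
of the starting file `GeneralizedTowers` for the number of the exceptional integers `p ≤ N` depends on the number of the terms and on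
the degrees only, and so it is uniform in the denominator `q`. The rest is the lemma of Borel and Cantelli, and the reduction to
countably many functions (`exists_idxR`): if the exceptional arguments of `F` are the `x` in `S`, then there are finitely many `x_l` in
`S` such that the values of `F` on `S` are determined by the values at the `x_l`, which are in the countable set `LogForms`. If
`v x ^ c` has two exceptional rational arguments `x`, `y` then `(x / y) ^ c` is the quotient of two numbers in `LogForms`, and `c` is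
in a countable set.
-/

set_option autoImplicit false

namespace Pool.Agent.Results.MP_93d8d2_nt.RationalMiddleEntries

open Filter MeasureTheory Polynomial
open Pool.Agent.Results.MP_93d8d2_nt.GeneralizedTowers (LogForms Trivial)
open Pool.Agent.D0H63.TW

/-- `P (p / q)` is true for all the `p / q` with `|ξ - p / q| ≤ ψ q`, for all large `q` -/
def NearQ (ψ : ℕ → ℝ) (ξ : ℝ) (P : ℝ → Prop) : Prop :=
  ∀ᶠ q : ℕ in atTop, ∀ p : ℕ, |ξ - (p : ℝ) / q| ≤ ψ q → P ((p : ℝ) / q)

/-- for all the `x = p / q` with `|ξ - x| ≤ ψ q`, for all large `q`: `v x ^ c` is not in `LogForms` (for any `v ≠ 0` and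
`c ∉ ℚ`), `a ^ (x ^ c)` is transcendental (for any `a > 0`, `a ≠ 1` and any irrational `c`), and `Fr c B x = ∑ x ^ {c_i} B_i(log x)`
is not in `LogForms` (for any nontrivial `B` and exponents in `E`) -/
def WorksQ (E : Set ℂ) (ψ : ℕ → ℝ) (ξ : ℝ) : Prop :=
  (∀ v c : ℂ, v ≠ 0 → (∀ r : ℚ, c ≠ r) →
    NearQ ψ ξ fun x => v * Complex.exp (c * ((Real.log x : ℝ) : ℂ)) ∉ LogForms) ∧
  (∀ a c : ℝ, 0 < a → a ≠ 1 → Irrational c → NearQ ψ ξ fun x => Transcendental ℚ (a ^ (x ^ c))) ∧
  ∀ (m : ℕ) (c : Fin m → ℂ) (B : Fin m → ℂ[X]), Function.Injective c → (∀ i, c i ∈ E) → ¬ Trivial c B →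
    NearQ ψ ξ fun x => Fr c B x ∉ LogForms

theorem works_of (E : Set ℂ) {ψ : ℕ → ℝ} {ξ : ℝ} (hξ : 0 < ξ) (hirr : Irrational ξ) (hψ : Tendsto ψ atTop (nhds 0))
    (h : ∀ j, ∀ᶠ q : ℕ in atTop, ∀ p : ℕ, 1 ≤ p → |ξ - (p : ℝ) / q| ≤ ψ q → (p, q) ∉ QR (E ∪ CSetR) j) : WorksQ E ψ ξ := by
  have hpos : ∀ᶠ q : ℕ in atTop, 1 ≤ q ∧ ∀ p : ℕ, |ξ - (p : ℝ) / q| ≤ ψ q → 1 ≤ p := by
    filter_upwards [eventually_ge_atTop 1, hψ.eventually (gt_mem_nhds hξ)] with q h1 h2
    refine ⟨h1, fun p hp => ?_⟩
    by_contra h3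
    have h4 : p = 0 := by omega
    rw [h4, Nat.cast_zero, zero_div, sub_zero, abs_of_pos hξ] at hp
    linarith
  have h3 : ∀ (m : ℕ) (c : Fin m → ℂ) (B : Fin m → ℂ[X]), Function.Injective c → (∀ i, c i ∈ E ∪ CSetR) → ¬ Trivial c B →
      NearQ ψ ξ fun x => Fr c B x ∉ LogForms := by
    intro m c B hc hE hB
    obtain ⟨j, hj⟩ := exists_idxR (E ∪ CSetR) c hc hE B hB
    filter_upwards [h j, hpos] with q h1 h2 p hp hbad
    exact h1 p (h2.2 p hp) hp (hj (p, q) hbad)
  have h1 : ∀ v c : ℂ, v ≠ 0 → (∀ r : ℚ, c ≠ r) →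
      NearQ ψ ξ fun x => v * Complex.exp (c * ((Real.log x : ℝ) : ℂ)) ∉ LogForms := by
    intro v c hv hc
    by_cases hcC : c ∈ CSetR
    · have h4 := h3 1 (fun _ => c) (fun _ => Polynomial.C v) (fun i j _ => Subsingleton.elim i j) (fun _ => Or.inr hcC) (by
        intro ht
        have h5 := (ht 0).1 (fun ⟨r, hr⟩ => hc r hr)
        exact hv (Polynomial.C_eq_zero.1 h5))
      refine h4.mono fun q hq p hp hbad => hq p hp ?_
      have h5 : Fr (fun _ : Fin 1 => c) (fun _ => Polynomial.C v) ((p : ℝ) / q) =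
          v * Complex.exp (c * ((Real.log ((p : ℝ) / q) : ℝ) : ℂ)) := by
        unfold Fr
        rw [Fin.sum_univ_one, Polynomial.eval_C]
        ring
      rw [h5]
      exact hbad
    · by_cases h4 : ∃ y : ℚ, 0 < y ∧ v * Complex.exp (c * ((Real.log y : ℝ) : ℂ)) ∈ LogForms
      · obtain ⟨y, h5, h6⟩ := h4
        have h7 : 0 < |ξ - y| := by
          rw [abs_pos, sub_ne_zero]
          exact hirr.ne_rat y
        filter_upwards [hpos, hψ.eventually (gt_mem_nhds h7)] with q h8 h9 p hp hbad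
        have h10 : (((p : ℚ) / q : ℚ) : ℝ) = (p : ℝ) / q := by push_cast; rfl
        have h11 : (0 : ℚ) < (p : ℚ) / q := by
          have h12 : (0 : ℚ) < p := by exact_mod_cast h8.2 p hp
          have h13 : (0 : ℚ) < q := by exact_mod_cast h8.1
          positivity
        refine hcC (mem_CSetR hv h11 h5 ?_ (by rw [h10]; exact hbad) h6)
        intro h12
        rw [← h10, h12] at hp
        linarith
      · push Not at h4
        filter_upwards [hpos] with q h8 p hp
        have h10 : (((p : ℚ) / q : ℚ) : ℝ) = (p : ℝ) / q := by push_cast; rfl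
        have h11 : (0 : ℚ) < (p : ℚ) / q := by
          have h12 : (0 : ℚ) < p := by exact_mod_cast h8.2 p hp
          have h13 : (0 : ℚ) < q := by exact_mod_cast h8.1
          positivity
        have := h4 _ h11
        rwa [h10] at this
  refine ⟨h1, ?_, fun m c B hc hE hB => h3 m c B hc (fun i => Or.inl (hE i)) hB⟩
  intro a c ha ha1 hc
  have hv : ((Real.log a : ℝ) : ℂ) ≠ 0 := by
    rw [Complex.ofReal_ne_zero]
    exact Real.log_ne_zero_of_pos_of_ne_one ha ha1
  have hcr : ∀ r : ℚ, (c : ℂ) ≠ r := by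
    intro r hr
    apply hc
    refine ⟨r, ?_⟩
    have h2 : ((r : ℝ) : ℂ) = (c : ℂ) := by
      rw [hr]
      push_cast
      rfl
    exact_mod_cast h2
  filter_upwards [h1 _ _ hv hcr, hpos] with q hq h8 p hp
  have hx0 : (0 : ℝ) < (p : ℝ) / q := by
    have h12 : (0 : ℝ) < p := by exact_mod_cast h8.2 p hp
    have h13 : (0 : ℝ) < q := by exact_mod_cast h8.1
    positivity
  obtain ⟨x, hx⟩ : ∃ x : ℝ, x = (p : ℝ) / q := ⟨_, rfl⟩
  have h2 := GeneralizedTowers.result.2.2 _ 0 1 (hq p hp) isAlgebraic_zero isAlgebraic_one one_ne_zero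
  rw [← hx] at hx0 h2 ⊢
  rw [zero_add, one_mul] at h2
  intro halg
  apply h2
  have h4 : Complex.exp (((Real.log a : ℝ) : ℂ) * Complex.exp ((c : ℂ) * ((Real.log x : ℝ) : ℂ))) =
      algebraMap ℝ ℂ (a ^ (x ^ c)) := by
    rw [Complex.coe_algebraMap, Real.rpow_def_of_pos ha, Real.rpow_def_of_pos hx0]
    push_cast
    rw [mul_comm (c : ℂ)]
  rw [h4]
  exact halg.algebraMap

/-- **Theorem.** Let `E` be a countable set of complex numbers.
(1) If `ψ ≥ 0` and `∑ q ψ(q) (log q) ^ (-θ)` converges for one `θ` with `0 < θ < 1` then almost all `ξ > 0` work for all the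
towers and functions at the rational numbers `p / q` with `|ξ - p / q| ≤ ψ(q)` (`WorksQ`).
(2) Such are the functions `ψ(q) = 1 / (q ^ 2 (log q) ^ δ)`, for any `δ > 0`. -/
theorem result (E : Set ℂ) (hE : E.Countable) :
    (∀ (ψ : ℕ → ℝ) (θ : ℝ), (∀ q, 0 ≤ ψ q) → 0 < θ → θ < 1 →
      (Summable fun q : ℕ => (q : ℝ) * ψ q * (Real.log q) ^ (-θ)) → ∀ᵐ ξ : ℝ, 0 < ξ → WorksQ E ψ ξ) ∧
    (∀ δ : ℝ, 0 < δ → ∀ᵐ ξ : ℝ, 0 < ξ → WorksQ E (fun q : ℕ => 1 / ((q : ℝ) ^ 2 * (Real.log q) ^ δ)) ξ) := by
  have main : ∀ (ψ : ℕ → ℝ) (θ : ℝ), (∀ q, 0 ≤ ψ q) → 0 < θ → θ < 1 →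
      (Summable fun q : ℕ => (q : ℝ) * ψ q * (Real.log q) ^ (-θ)) → ∀ᵐ ξ : ℝ, 0 < ξ → WorksQ E ψ ξ := by
    intro ψ θ hψ hθ0 hθ hsum
    have h1 : Countable ↑(E ∪ CSetR) := (hE.union countable_CSetR).to_subtype
    have h2 : Countable LogForms := countable_logForms.to_subtype
    have h3 := ae_all_iff.2 fun j => rat_metric (QR_thin (E ∪ CSetR) j) hψ hθ0 hθ hsum
    have h4 : ∀ᵐ ξ : ℝ, ξ ∉ Set.range ((↑) : ℚ → ℝ) :=
      compl_mem_ae_iff.2 ((Set.countable_range _).measure_zero _)
    filter_upwards [h3, h4] with ξ h5 h6 h7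
    exact works_of E h7 h6 (psi_le hψ hθ0 hθ hsum) h5
  refine ⟨main, fun δ hδ => ?_⟩
  obtain ⟨ε, hε⟩ : ∃ ε : ℝ, ε = min δ 1 / 2 := ⟨_, rfl⟩
  have hε0 : 0 < ε := by rw [hε]; positivity
  have hε1 : ε < 1 := by
    rw [hε]
    have := min_le_right δ 1
    linarith
  have hεδ : ε < δ := by
    rw [hε]
    have := min_le_left δ 1
    linarith
  have hlog : ∀ q : ℕ, 0 ≤ Real.log q := fun q => Real.log_natCast_nonneg q
  refine main _ (1 - ε) (fun q => ?_) (by linarith) (by linarith) ?_
  · have := Real.rpow_nonneg (hlog q) δ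
    positivity
  · refine (sum_log (s := δ + (1 - ε)) (by linarith)).congr fun q => ?_
    rcases Nat.lt_or_ge q 2 with hq | hq
    · have h1 : Real.log q = 0 := by
        interval_cases q <;> simp
      rw [h1, Real.zero_rpow (by linarith), Real.zero_rpow (by linarith), mul_zero, mul_zero, div_zero, mul_zero, zero_mul]
    · have hq2 : (1 : ℝ) < q := by exact_mod_cast hq
      have hl : 0 < Real.log q := Real.log_pos hq2
      have h1 : (Real.log q) ^ (-(δ + (1 - ε))) = ((Real.log q) ^ δ)⁻¹ * (Real.log q) ^ (-(1 - ε)) := by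
        rw [neg_add, Real.rpow_add hl, Real.rpow_neg hl.le δ]
      rw [h1]
      have h2 : (q : ℝ) ≠ 0 := by linarith
      have h3 : (Real.log q) ^ δ ≠ 0 := (Real.rpow_pos_of_pos hl δ).ne'
      field_simp

end Pool.Agent.Results.MP_93d8d2_nt.RationalMiddleEntries
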